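import Mathlib
import Pool.Agent.Cov.PNT
import Pool.Agent.J4H38.GS.Stm5

/-!
# Project GS5 of helper38: (WI), the Wiener-Ikehara theorem for nonnegative functions

Fejér kernel `K` of `Cov/PNT.lean`.  For every scale `L` the convolution `Gc f L s = ∫ f(u) L K(L(s-u)) du` tends to `C ∫ K` (`Gc_eq`: Fubini,
`x → 0+` by monotone convergence, Riemann-Lebesgue); the windows by Tonelli from the integrals of `Gc f L` over slightly larger and
slightly smaller windows, the tails by the integral of `K` over a period.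
-/

set_option autoImplicit false

open MeasureTheory Set Filter Topology

namespace Pool.Agent.J4H18.GS

open Pool.Agent.Cov.PNT (K K_nonneg K_le_one K_mul_sq_le K_measurable K_integrable K_integral_pos fejer_complex K_shift_integrable J J_tendsto window Q_tendsto)

noncomputable section

/-- Fubini -/
lemma fub {g : ℝ → ℝ} (hg : Measurable g) {x : ℝ} (hgi : IntegrableOn (fun u => g u * Real.exp (-x * u)) (Ioi 0))
    {L : ℝ} (U : ℝ) (hL : 0 < L) :
    ∫ y in (-L)..L, ((1 - |y| / L : ℝ) : ℂ) * Complex.exp (Complex.I * ((U * y : ℝ) : ℂ)) *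
      (∫ u in Ioi (0 : ℝ), (g u : ℂ) * Complex.exp (-((x : ℂ) + Complex.I * y) * u))
    = ((∫ u in Ioi (0 : ℝ), g u * Real.exp (-x * u) * (L * K (L * (U - u))) : ℝ) : ℂ) := by
  have hLL : -L ≤ L := by linarith
  set G : ℝ → ℝ → ℂ := fun y u => ((1 - |y| / L : ℝ) : ℂ) * Complex.exp (Complex.I * ((U * y : ℝ) : ℂ)) *
      ((g u : ℂ) * Complex.exp (-((x : ℂ) + Complex.I * y) * u)) with hG
  have hgm : Measurable (Function.uncurry G) := by
    have hm : Measurable (fun p : ℝ × ℝ => g p.2) := hg.comp measurable_snd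
    have : Function.uncurry G = fun p : ℝ × ℝ => ((1 - |p.1| / L : ℝ) : ℂ) *
      Complex.exp (Complex.I * ((U * p.1 : ℝ) : ℂ)) *
      ((g p.2 : ℂ) * Complex.exp (-((x : ℂ) + Complex.I * p.1) * p.2)) := by
      ext p; rfl
    rw [this]
    fun_prop
  have hnorm : ∀ y ∈ Ioc (-L) L, ∀ u ∈ Ioi (0 : ℝ), ‖G y u‖ ≤ ‖g u * Real.exp (-x * u)‖ := by
    intro y hy u hu
    simp only [hG, norm_mul, Complex.norm_exp, Complex.norm_real]
    have e1 : (Complex.I * ((U * y : ℝ) : ℂ)).re = 0 := by simp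
    have e2 : (-((x : ℂ) + Complex.I * y) * u).re = -x * u := by simp
    rw [e1, e2, Real.exp_zero, mul_one]
    have h1 : ‖1 - |y| / L‖ ≤ 1 := by
      have hy1 : |y| ≤ L := abs_le.mpr ⟨hy.1.le, hy.2⟩
      have hy2 : |y| / L ≤ 1 := (div_le_one hL).mpr hy1
      have hy3 : 0 ≤ |y| / L := by positivity
      rw [Real.norm_eq_abs, abs_le]
      constructor <;> linarith
    rw [Real.norm_of_nonneg (Real.exp_pos _).le]
    calc ‖1 - |y| / L‖ * (‖g u‖ * Real.exp (-x * u))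
        ≤ 1 * (‖g u‖ * Real.exp (-x * u)) := mul_le_mul_of_nonneg_right h1 (by positivity)
      _ = _ := one_mul _
  have hint : Integrable (Function.uncurry G)
      ((volume.restrict (Ioc (-L) L)).prod (volume.restrict (Ioi (0 : ℝ)))) := by
    have hb : Integrable (fun p : ℝ × ℝ => (1 : ℝ) * ‖g p.2 * Real.exp (-x * p.2)‖)
        ((volume.restrict (Ioc (-L) L)).prod (volume.restrict (Ioi (0 : ℝ)))) := by
      apply Integrable.mul_prod (f := fun _ : ℝ => (1 : ℝ)) (g := fun u => ‖g u * Real.exp (-x * u)‖)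
      · exact integrable_const _
      · exact hgi.norm
    refine Integrable.mono' hb hgm.aestronglyMeasurable ?_
    rw [Measure.prod_restrict]
    refine (ae_restrict_mem (measurableSet_Ioc.prod measurableSet_Ioi)).mono ?_
    intro p hp
    rw [one_mul]
    exact hnorm p.1 hp.1 p.2 hp.2
  rw [intervalIntegral.integral_of_le hLL]
  have step1 : ∫ y in Ioc (-L) L, ((1 - |y| / L : ℝ) : ℂ) * Complex.exp (Complex.I * ((U * y : ℝ) : ℂ)) *
      (∫ u in Ioi (0 : ℝ), (g u : ℂ) * Complex.exp (-((x : ℂ) + Complex.I * y) * u))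
      = ∫ y in Ioc (-L) L, ∫ u in Ioi (0 : ℝ), G y u := by
    refine integral_congr_ae (Eventually.of_forall fun y => ?_)
    simp only [hG]
    rw [integral_const_mul]
  rw [step1, integral_integral_swap hint, ← integral_complex_ofReal]
  refine integral_congr_ae (Eventually.of_forall fun u => ?_)
  simp only [hG]
  have hfe := fejer_complex L (U - u) hL
  rw [intervalIntegral.integral_of_le hLL] at hfe
  have : ∀ y : ℝ, ((1 - |y| / L : ℝ) : ℂ) * Complex.exp (Complex.I * ((U * y : ℝ) : ℂ)) *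
      ((g u : ℂ) * Complex.exp (-((x : ℂ) + Complex.I * y) * u))
      = ((g u * Real.exp (-x * u) : ℝ) : ℂ) *
        (((1 - |y| / L : ℝ) : ℂ) * Complex.exp (Complex.I * (((U - u) * y : ℝ) : ℂ))) := by
    intro y
    have e : Complex.exp (Complex.I * ((U * y : ℝ) : ℂ)) * Complex.exp (-((x : ℂ) + Complex.I * y) * u)
      = ((Real.exp (-x * u) : ℝ) : ℂ) * Complex.exp (Complex.I * (((U - u) * y : ℝ) : ℂ)) := by
      rw [← Complex.exp_add, Complex.ofReal_exp, ← Complex.exp_add]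
      congr 1
      push_cast
      ring
    push_cast at e ⊢
    linear_combination (1 - ((|y| : ℝ) : ℂ) / L) * (g u : ℂ) * e
  simp_rw [this]
  rw [integral_const_mul, hfe]
  push_cast
  ring

/-- the transform of `f - C` -/
lemma tr {f : ℝ → ℝ} {C : ℝ} (hf : Measurable f) (hi : ∀ x : ℝ, 0 < x → IntegrableOn (fun u => f u * Real.exp (-x * u)) (Ioi 0))
    {Ψ : ℂ → ℂ} {z : ℂ} (hz : 0 < z.re)
    (hE : ∫ u in Ioi (0 : ℝ), (f u : ℂ) * Complex.exp (-z * u) = C / z + Ψ z) :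
    ∫ u in Ioi (0 : ℝ), ((f u - C : ℝ) : ℂ) * Complex.exp (-z * u) = Ψ z := by
  have h1 : IntegrableOn (fun u : ℝ => (f u : ℂ) * Complex.exp (-z * u)) (Ioi 0) := by
    refine Integrable.mono' (hi z.re hz).norm ?_ (Eventually.of_forall fun u => ?_)
    · exact Measurable.aestronglyMeasurable (by fun_prop)
    · rw [norm_mul, Complex.norm_exp, Complex.norm_real, norm_mul, Real.norm_of_nonneg (Real.exp_pos _).le]
      have : (-z * u).re = -z.re * u := by simp
      rw [this]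
  have hz' : (-z).re < 0 := by simpa using hz
  have h2 : IntegrableOn (fun u : ℝ => (C : ℂ) * Complex.exp (-z * u)) (Ioi 0) :=
    (integrableOn_exp_mul_complex_Ioi hz' 0).const_mul _
  have e : ∀ u : ℝ, ((f u - C : ℝ) : ℂ) * Complex.exp (-z * u) = (f u : ℂ) * Complex.exp (-z * u) - (C : ℂ) * Complex.exp (-z * u) := by
    intro u; push_cast; ring
  simp_rw [e]
  rw [integral_sub h1 h2, hE, integral_const_mul, integral_exp_mul_complex_Ioi hz' 0]
  have hz0 : z ≠ 0 := by rintro rfl; simp at hz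
  simp
  field_simp
  ring

lemma gi {f : ℝ → ℝ} {C : ℝ} (hi : ∀ x : ℝ, 0 < x → IntegrableOn (fun u => f u * Real.exp (-x * u)) (Ioi 0)) {x : ℝ} (hx : 0 < x) :
    IntegrableOn (fun u => (f u - C) * Real.exp (-x * u)) (Ioi 0) := by
  have h1 := (integrableOn_exp_mul_Ioi (show -x < 0 by linarith) 0).const_mul C
  refine ((hi x hx).sub h1).congr (Eventually.of_forall fun u => ?_)
  simp only [Pi.sub_apply]
  ring

/-- the boundary value -/
def Rb (Ψ : ℂ → ℂ) (L U : ℝ) : ℂ := ∫ y in (-L)..L, ((1 - |y| / L : ℝ) : ℂ) *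
  Complex.exp (Complex.I * ((U * y : ℝ) : ℂ)) * Ψ (Complex.I * y)

lemma lim_l {Ψ : ℂ → ℂ} {r L : ℝ} (hr : 0 < r) (hL : 0 < L)
    (hΨ : ContinuousOn Ψ {z : ℂ | 0 ≤ z.re ∧ z.re ≤ r ∧ |z.im| ≤ L}) (U : ℝ) :
    Tendsto (fun x : ℝ => ∫ y in (-L)..L, ((1 - |y| / L : ℝ) : ℂ) *
      Complex.exp (Complex.I * ((U * y : ℝ) : ℂ)) * Ψ (x + Complex.I * y)) (𝓝[>] 0) (𝓝 (Rb Ψ L U)) := by
  have hLL : -L ≤ L := by linarith
  have hcont : ContinuousOn (fun p : ℝ × ℝ => Ψ ((p.1 : ℂ) + Complex.I * p.2))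
      (Icc 0 r ×ˢ Icc (-L) L) := by
    refine hΨ.comp (by fun_prop) ?_
    intro p hp
    refine ⟨?_, ?_, ?_⟩
    · simpa using hp.1.1
    · simpa using hp.1.2
    · simpa using abs_le.2 hp.2
  obtain ⟨M, hM⟩ := (isCompact_Icc.prod isCompact_Icc).exists_bound_of_continuousOn hcont
  have hev : ∀ᶠ σ : ℝ in 𝓝[>] 0, σ < r := nhdsWithin_le_nhds (Iio_mem_nhds hr)
  refine intervalIntegral.tendsto_integral_filter_of_dominated_convergence (fun _ => M) ?_ ?_ ?_ ?_
  · filter_upwards [self_mem_nhdsWithin, hev] with σ hσ hσr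
    have hσ' : (0 : ℝ) ≤ σ := le_of_lt hσ
    rw [uIoc_of_le hLL]
    refine ContinuousOn.aestronglyMeasurable ?_ measurableSet_Ioc
    refine ContinuousOn.mul (by fun_prop) ?_
    have : ContinuousOn (fun y : ℝ => (fun p : ℝ × ℝ => Ψ ((p.1 : ℂ) + Complex.I * p.2)) (σ, y)) (Ioc (-L) L) :=
      hcont.comp (by fun_prop) (fun y hy => ⟨⟨hσ', hσr.le⟩, ⟨hy.1.le, hy.2⟩⟩)
    exact this
  · filter_upwards [self_mem_nhdsWithin, hev] with σ hσ hσ1
    have hσ' : (0 : ℝ) ≤ σ := le_of_lt hσ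
    refine Eventually.of_forall fun y hy => ?_
    rw [uIoc_of_le hLL] at hy
    have hb := hM (σ, y) ⟨⟨hσ', hσ1.le⟩, ⟨hy.1.le, hy.2⟩⟩
    rw [norm_mul, norm_mul, Complex.norm_exp]
    have e1 : (Complex.I * ((U * y : ℝ) : ℂ)).re = 0 := by simp
    rw [e1, Real.exp_zero, mul_one, Complex.norm_real]
    have hy1 : |y| ≤ L := abs_le.mpr ⟨hy.1.le, hy.2⟩
    have hy2 : |y| / L ≤ 1 := (div_le_one hL).mpr hy1
    have hy3 : 0 ≤ |y| / L := by positivity
    have h1 : ‖1 - |y| / L‖ ≤ 1 := by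
      rw [Real.norm_eq_abs, abs_le]
      constructor <;> linarith
    calc ‖1 - |y| / L‖ * ‖Ψ (σ + Complex.I * y)‖ ≤ 1 * M :=
          mul_le_mul h1 hb (norm_nonneg _) zero_le_one
      _ = M := one_mul _
  · exact intervalIntegrable_const
  · refine Eventually.of_forall fun y hy => ?_
    rw [uIoc_of_le hLL] at hy
    refine Tendsto.const_mul _ ?_
    have hc := hΨ (Complex.I * y) (by simpa using ⟨hr.le, abs_le.2 ⟨hy.1.le, hy.2⟩⟩)
    have : Tendsto (fun σ : ℝ => (σ : ℂ) + Complex.I * y) (𝓝[>] 0)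
        (𝓝[{z : ℂ | 0 ≤ z.re ∧ z.re ≤ r ∧ |z.im| ≤ L}] (Complex.I * y)) := by
      refine tendsto_nhdsWithin_iff.mpr ⟨?_, ?_⟩
      · have h0 : Continuous (fun σ : ℝ => (σ : ℂ) + Complex.I * y) := by fun_prop
        have := h0.tendsto 0
        simp only [Complex.ofReal_zero, zero_add] at this
        exact this.mono_left nhdsWithin_le_nhds
      · filter_upwards [self_mem_nhdsWithin, hev] with σ hσ hσr
        have hσ' : (0 : ℝ) ≤ σ := le_of_lt hσ
        refine ⟨by simpa using hσ', by simpa using hσr.le, by simpa using abs_le.2 ⟨hy.1.le, hy.2⟩⟩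
    exact Tendsto.comp hc this

/-- Riemann-Lebesgue -/
lemma Rb_tendsto (Ψ : ℂ → ℂ) {L : ℝ} (hL : 0 < L) : Tendsto (fun U : ℝ => Rb Ψ L U) atTop (𝓝 0) := by
  have hLL : -L ≤ L := by linarith
  set f : ℝ → ℂ := (Ioc (-L) L).indicator
    (fun y => ((1 - |y| / L : ℝ) : ℂ) * Ψ (Complex.I * y)) with hf
  have hrl := Real.tendsto_integral_exp_smul_cocompact f
  have hmap : Tendsto (fun x : ℝ => -x / (2 * Real.pi)) atTop (cocompact ℝ) := by
    refine Tendsto.mono_right ?_ atBot_le_cocompact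
    have hpi : 0 < 2 * Real.pi := by positivity
    exact (tendsto_neg_atTop_atBot).atBot_div_const hpi
  have h1 := hrl.comp hmap
  refine h1.congr fun x => ?_
  unfold Rb
  rw [intervalIntegral.integral_of_le hLL, ← integral_indicator measurableSet_Ioc]
  simp only [Function.comp]
  refine integral_congr_ae (Eventually.of_forall fun y => ?_)
  simp only [hf]
  by_cases hy : y ∈ Ioc (-L) L
  · rw [indicator_of_mem hy, indicator_of_mem hy, Circle.smul_def, Real.fourierChar_apply,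
      smul_eq_mul]
    have e : Complex.exp (2 * Real.pi * (-(y * (-x / (2 * Real.pi))) : ℝ) * Complex.I)
      = Complex.exp (Complex.I * ((x * y : ℝ) : ℂ)) := by
      congr 1
      have hpi : (Real.pi : ℂ) ≠ 0 := by exact_mod_cast Real.pi_ne_zero
      push_cast
      field_simp
    push_cast at e ⊢
    rw [e]
    ring
  · rw [indicator_of_notMem hy, indicator_of_notMem hy, smul_zero]

lemma int_fK {f : ℝ → ℝ} (hf : Measurable f) {x : ℝ} (hi : IntegrableOn (fun u => f u * Real.exp (-x * u)) (Ioi 0)) {L : ℝ}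
    (hL : 0 < L) (U : ℝ) : IntegrableOn (fun u => f u * Real.exp (-x * u) * (L * K (L * (U - u)))) (Ioi 0) := by
  refine Integrable.mono' (hi.norm.mul_const L) ?_ (Eventually.of_forall fun u => ?_)
  · have := K_measurable
    exact Measurable.aestronglyMeasurable (by fun_prop)
  · rw [norm_mul (f u * _)]
    refine mul_le_mul_of_nonneg_left ?_ (norm_nonneg _)
    rw [Real.norm_of_nonneg (mul_nonneg hL.le (K_nonneg _))]
    calc L * K _ ≤ L * 1 := mul_le_mul_of_nonneg_left (K_le_one _) hL.le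
      _ = L := mul_one L

lemma int_CK (C : ℝ) {x : ℝ} (hx : 0 < x) {L : ℝ}
    (hL : 0 < L) (U : ℝ) : IntegrableOn (fun u => C * Real.exp (-x * u) * (L * K (L * (U - u)))) (Ioi 0) :=
  int_fK (f := fun _ => C) measurable_const ((integrableOn_exp_mul_Ioi (show -x < 0 by linarith) 0).const_mul C) hL U

lemma lim_C (C : ℝ) {L : ℝ} (hL : 0 < L) (U : ℝ) :
    Tendsto (fun x : ℝ => ∫ u in Ioi (0 : ℝ), C * Real.exp (-x * u) * (L * K (L * (U - u)))) (𝓝[>] 0)
      (𝓝 (C * ∫ u in Ioi (0 : ℝ), L * K (L * (U - u)))) := by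
  rw [← integral_const_mul]
  refine tendsto_integral_filter_of_dominated_convergence (fun u => |C| * (L * K (L * (U - u)))) ?_ ?_ ?_ ?_
  · refine Eventually.of_forall fun σ => Measurable.aestronglyMeasurable ?_
    have := K_measurable
    fun_prop
  · filter_upwards [self_mem_nhdsWithin] with σ hσ
    have hσ' : (0 : ℝ) < σ := hσ
    refine (ae_restrict_mem measurableSet_Ioi).mono fun u hu => ?_
    have hu' : (0 : ℝ) ≤ u := le_of_lt hu
    rw [norm_mul, norm_mul, Real.norm_of_nonneg (Real.exp_pos _).le,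
      Real.norm_of_nonneg (mul_nonneg hL.le (K_nonneg _)), Real.norm_eq_abs]
    refine mul_le_mul_of_nonneg_right ?_ (mul_nonneg hL.le (K_nonneg _))
    have h3 : Real.exp (-σ * u) ≤ 1 := by
      rw [Real.exp_le_one_iff]
      have := mul_nonneg hσ'.le hu'
      linarith
    calc |C| * Real.exp (-σ * u) ≤ |C| * 1 := mul_le_mul_of_nonneg_left h3 (abs_nonneg _)
      _ = |C| := mul_one _
  · exact ((K_shift_integrable L U hL).const_mul _).integrableOn
  · refine Eventually.of_forall fun u => ?_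
    have h0 : Continuous (fun σ : ℝ => C * Real.exp (-σ * u) * (L * K (L * (U - u)))) := by fun_prop
    have := h0.tendsto 0
    simp only [neg_zero, zero_mul, Real.exp_zero, mul_one] at this
    exact this.mono_left nhdsWithin_le_nhds

/-- the kernel at scale `L` -/
def kL (L w : ℝ) : ENNReal := ENNReal.ofReal (L * K (L * w))

/-- the convolution -/
def Gc (f : ℝ → ℝ) (L s : ℝ) : ENNReal := ∫⁻ u in Ioi (0 : ℝ), ENNReal.ofReal (f u) * kL L (s - u)

def VV (Ψ : ℂ → ℂ) (C L U : ℝ) : ℝ := (Rb Ψ L U).re + C * ∫ u in Ioi (0 : ℝ), L * K (L * (U - u))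

lemma VV_tendsto (Ψ : ℂ → ℂ) (C : ℝ) {L : ℝ} (hL : 0 < L) : Tendsto (fun U => VV Ψ C L U) atTop (𝓝 (C * ∫ v, K v)) := by
  have h1 := (Complex.continuous_re.tendsto _).comp (Rb_tendsto Ψ hL)
  have h2 := h1.add ((Q_tendsto L hL).const_mul C)
  simpa [Function.comp_def, VV] using h2

lemma Gc_eq {f : ℝ → ℝ} {C r : ℝ} (hf : Measurable f) (hf0 : ∀ u, 0 ≤ f u) (hr : 0 < r)
    (hi : ∀ x : ℝ, 0 < x → IntegrableOn (fun u => f u * Real.exp (-x * u)) (Ioi 0)) {L : ℝ} (hL : 0 < L) {Ψ : ℂ → ℂ}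
    (hΨ : ContinuousOn Ψ {z : ℂ | 0 ≤ z.re ∧ z.re ≤ r ∧ |z.im| ≤ L})
    (hE : ∀ z : ℂ, 0 < z.re → z.re ≤ r → |z.im| ≤ L → ∫ u in Ioi (0 : ℝ), (f u : ℂ) * Complex.exp (-z * u) = C / z + Ψ z) (U : ℝ) :
    0 ≤ VV Ψ C L U ∧ Gc f L U = ENNReal.ofReal (VV Ψ C L U) := by
  set P : ℝ → ℝ := fun x => ∫ u in Ioi (0 : ℝ), f u * Real.exp (-x * u) * (L * K (L * (U - u))) with hP
  have hKn : ∀ w, 0 ≤ L * K w := fun w => mul_nonneg hL.le (K_nonneg _)
  have hP0 : ∀ x, 0 ≤ P x := fun x => integral_nonneg fun u =>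
    mul_nonneg (mul_nonneg (hf0 u) (Real.exp_pos _).le) (hKn _)
  have hlim : Tendsto P (𝓝[>] 0) (𝓝 (VV Ψ C L U)) := by
    have h1 := (Complex.continuous_re.tendsto _).comp (lim_l hr hL hΨ U)
    have h2 := h1.add (lim_C C hL U)
    refine h2.congr' ?_
    have hev : ∀ᶠ σ : ℝ in 𝓝[>] 0, σ < r := nhdsWithin_le_nhds (Iio_mem_nhds hr)
    filter_upwards [self_mem_nhdsWithin, hev] with x hx hxr
    have hx' : (0 : ℝ) < x := hx
    have h3 := fub (g := fun u => f u - C) (by fun_prop) (gi hi hx') U hL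
    have h4 : ∫ y in (-L)..L, ((1 - |y| / L : ℝ) : ℂ) * Complex.exp (Complex.I * ((U * y : ℝ) : ℂ)) *
      (∫ u in Ioi (0 : ℝ), (((fun u => f u - C) u : ℝ) : ℂ) * Complex.exp (-((x : ℂ) + Complex.I * y) * u)) =
      ∫ y in (-L)..L, ((1 - |y| / L : ℝ) : ℂ) * Complex.exp (Complex.I * ((U * y : ℝ) : ℂ)) * Ψ (x + Complex.I * y) := by
      refine intervalIntegral.integral_congr fun y hy => ?_
      rw [uIcc_of_le (by linarith : -L ≤ L)] at hy
      have hz1 : ((x : ℂ) + Complex.I * y).re = x := by simp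
      have hz2 : ((x : ℂ) + Complex.I * y).im = y := by simp
      have h5 := tr (C := C) hf hi (z := (x : ℂ) + Complex.I * y) (by rw [hz1]; exact hx')
        (hE _ (by rw [hz1]; exact hx') (by rw [hz1]; exact hxr.le) (by rw [hz2]; exact abs_le.2 hy))
      simp only
      rw [h5]
    rw [h4] at h3
    simp only [Function.comp]
    rw [h3, Complex.ofReal_re, ← integral_add (int_fK (by fun_prop) (gi hi hx') hL U) (int_CK C hx' hL U)]
    refine integral_congr_ae (Eventually.of_forall fun u => ?_)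
    simp only
    ring
  have hV0 : 0 ≤ VV Ψ C L U := ge_of_tendsto' hlim hP0
  refine ⟨hV0, ?_⟩
  -- a sequence
  set x : ℕ → ℝ := fun n => r / (n + 1) with hx
  have hx0 : ∀ n, 0 < x n := fun n => by rw [hx]; positivity
  have hxl : Tendsto x atTop (𝓝[>] 0) := by
    refine tendsto_nhdsWithin_iff.2 ⟨?_, Eventually.of_forall fun n => hx0 n⟩
    exact tendsto_const_div_atTop_nhds_zero_nat r |>.comp (tendsto_add_atTop_nat 1) |>.congr fun n => by
      simp [hx, Function.comp]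
  have hmono : ∀ᵐ u ∂(volume.restrict (Ioi (0 : ℝ))), Monotone fun n =>
      ENNReal.ofReal (f u * Real.exp (-x n * u) * (L * K (L * (U - u)))) := by
    refine (ae_restrict_mem measurableSet_Ioi).mono fun u hu => ?_
    have hu' : (0 : ℝ) < u := hu
    intro n m hnm
    refine ENNReal.ofReal_le_ofReal (mul_le_mul_of_nonneg_right (mul_le_mul_of_nonneg_left (Real.exp_le_exp.2 ?_) (hf0 u)) (hKn _))
    have h1 : x m ≤ x n := by
      rw [hx]
      exact div_le_div_of_nonneg_left hr.le (by positivity) (by exact_mod_cast Nat.succ_le_succ hnm)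
    nlinarith
  have hpt : ∀ᵐ u ∂(volume.restrict (Ioi (0 : ℝ))), Tendsto (fun n =>
      ENNReal.ofReal (f u * Real.exp (-x n * u) * (L * K (L * (U - u))))) atTop (𝓝 (ENNReal.ofReal (f u) * kL L (U - u))) := by
    refine Eventually.of_forall fun u => ?_
    rw [kL, ← ENNReal.ofReal_mul (hf0 u)]
    refine ENNReal.tendsto_ofReal ?_
    have h0 : Continuous (fun σ : ℝ => f u * Real.exp (-σ * u) * (L * K (L * (U - u)))) := by fun_prop
    have h1 := (h0.tendsto 0).comp (hxl.mono_right nhdsWithin_le_nhds)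
    simpa [Function.comp_def] using h1
  have hmc := lintegral_tendsto_of_tendsto_of_monotone (fun n => by
    have := K_measurable
    have h2 : Measurable fun u => ENNReal.ofReal (f u * Real.exp (-x n * u) * (L * K (L * (U - u)))) := by fun_prop
    exact h2.aemeasurable) hmono hpt
  have hmc2 : Tendsto (fun n => ∫⁻ u in Ioi (0 : ℝ), ENNReal.ofReal (f u * Real.exp (-x n * u) * (L * K (L * (U - u))))) atTop
      (𝓝 (ENNReal.ofReal (VV Ψ C L U))) := by
    refine (ENNReal.tendsto_ofReal (hlim.comp hxl)).congr fun n => ?_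
    exact ofReal_integral_eq_lintegral_ofReal (int_fK hf (hi _ (hx0 n)) hL U) (Eventually.of_forall fun u =>
      mul_nonneg (mul_nonneg (hf0 u) (Real.exp_pos _).le) (hKn _))
  exact tendsto_nhds_unique hmc hmc2

lemma K_neg (v : ℝ) : K (-v) = K v := by
  unfold K
  simp [Real.cos_neg]

lemma kL_meas (L : ℝ) : Measurable (kL L) := by
  unfold kL
  have := K_measurable
  fun_prop

lemma Gc_meas {f : ℝ → ℝ} (hf : Measurable f) (L : ℝ) : Measurable (Gc f L) := by
  unfold Gc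
  have := kL_meas L
  exact Measurable.lintegral_prod_right' (f := fun p : ℝ × ℝ => ENNReal.ofReal (f p.2) * kL L (p.1 - p.2)) (by fun_prop)

lemma ton {f : ℝ → ℝ} (hf : Measurable f) (L a b : ℝ) :
    ∫⁻ s in Ioc a b, Gc f L s = ∫⁻ u in Ioi (0 : ℝ), ENNReal.ofReal (f u) * ∫⁻ s in Ioc a b, kL L (s - u) := by
  have := kL_meas L
  unfold Gc
  rw [lintegral_lintegral_swap (by
    have : Measurable (Function.uncurry fun s u : ℝ => ENNReal.ofReal (f u) * kL L (s - u)) := by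
      have : (Function.uncurry fun s u : ℝ => ENNReal.ofReal (f u) * kL L (s - u)) =
        fun p : ℝ × ℝ => ENNReal.ofReal (f p.2) * kL L (p.1 - p.2) := rfl
      rw [this]
      fun_prop
    exact this.aemeasurable)]
  refine lintegral_congr fun u => ?_
  rw [lintegral_const_mul _ (by fun_prop)]

lemma kint (L u : ℝ) (hL : 0 < L) : Integrable fun s => L * K (L * (s - u)) := by
  have h1 := K_shift_integrable L u hL
  refine h1.congr (Eventually.of_forall fun s => ?_)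
  show L * K (L * (u - s)) = L * K (L * (s - u))
  rw [← K_neg]
  congr 2
  ring

lemma k_window {L δ u : ℝ} (hL : 0 < L) (hδ : 0 < δ) : ∫⁻ s in Ioc (u - δ) (u + δ), kL L (s - u) = ENNReal.ofReal (J (L * δ)) := by
  unfold kL
  rw [← ofReal_integral_eq_lintegral_ofReal (kint L u hL).integrableOn (Eventually.of_forall fun s => mul_nonneg hL.le (K_nonneg _)),
    ← intervalIntegral.integral_of_le (by linarith), ← window L u δ]
  congr 1
  refine intervalIntegral.integral_congr fun s _ => ?_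
  show L * K (L * (s - u)) = L * K (L * (u - s))
  rw [← K_neg]
  congr 2
  ring

lemma k_total {L u : ℝ} (hL : 0 < L) : ∫⁻ s, kL L (s - u) = ENNReal.ofReal (∫ v, K v) := by
  unfold kL
  rw [← ofReal_integral_eq_lintegral_ofReal (kint L u hL) (Eventually.of_forall fun s => mul_nonneg hL.le (K_nonneg _))]
  congr 1
  rw [integral_sub_right_eq_self (fun w => L * K (L * w)) u, integral_const_mul, Measure.integral_comp_mul_left, smul_eq_mul,
    abs_of_pos (inv_pos.mpr hL)]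
  field_simp

/-- upper bound for the windows -/
lemma up {f : ℝ → ℝ} (hf : Measurable f) {L δ h U : ℝ} (hL : 0 < L) (hδ : 0 < δ) (hU : 0 ≤ U) :
    ENNReal.ofReal (J (L * δ)) * ∫⁻ u in Ioc U (U + h), ENNReal.ofReal (f u) ≤ ∫⁻ s in Ioc (U - δ) (U + h + δ), Gc f L s := by
  have hk := kL_meas L
  rw [ton hf, ← lintegral_const_mul _ (by fun_prop)]
  have h1 : ∫⁻ u in Ioc U (U + h), ENNReal.ofReal (J (L * δ)) * ENNReal.ofReal (f u) ≤
      ∫⁻ u in Ioc U (U + h), ENNReal.ofReal (f u) * ∫⁻ s in Ioc (U - δ) (U + h + δ), kL L (s - u) := by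
    refine lintegral_mono_ae ((ae_restrict_mem measurableSet_Ioc).mono fun u hu => ?_)
    rw [mul_comm]
    refine mul_le_mul_right ?_ _
    rw [← k_window hL hδ (u := u)]
    refine lintegral_mono_set ?_
    intro s hs
    exact ⟨by linarith [hs.1, hu.1], by linarith [hs.2, hu.2]⟩
  refine h1.trans (lintegral_mono_set ?_)
  intro u hu
  exact lt_of_le_of_lt hU hu.1

/-- the integral of the kernel over a period -/
lemma per (w : ℝ) : 1 / (2 * Real.pi * (1 + w ^ 2)) ≤ ∫ v in w..(w + 2 * Real.pi), K v := by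
  have hpi := Real.pi_pos
  have hpi3 := Real.pi_gt_three
  set B : ℝ := (|w| + 2 * Real.pi) ^ 2 with hB
  have hB0 : 0 < B := by positivity
  have h1 : ∫ v in w..(w + 2 * Real.pi), 2 / B * (1 - Real.cos v) = 4 * Real.pi / B := by
    rw [intervalIntegral.integral_const_mul, intervalIntegral.integral_sub (by simp) (by
      exact Real.continuous_cos.intervalIntegrable _ _), integral_cos, Real.sin_add_two_pi]
    simp
    ring
  have h2 : ∫ v in w..(w + 2 * Real.pi), 2 / B * (1 - Real.cos v) ≤ ∫ v in w..(w + 2 * Real.pi), K v := by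
    refine intervalIntegral.integral_mono_on (by linarith) ?_ K_integrable.intervalIntegrable ?_
    · apply Continuous.intervalIntegrable; fun_prop
    · intro v hv
      unfold K
      split_ifs with h0
      · subst h0; simp
      · have hv2 : 0 < v ^ 2 := by positivity
        have hv3 : v ^ 2 ≤ B := by
          rw [hB, ← sq_abs v]
          refine pow_le_pow_left₀ (abs_nonneg _) ?_ 2
          rw [abs_le]
          constructor
          · linarith [neg_abs_le w, hv.1]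
          · linarith [le_abs_self w, hv.2]
        have hc := Real.cos_le_one v
        rw [div_mul_eq_mul_div]
        exact div_le_div_of_nonneg_left (by linarith) hv2 hv3
  refine le_trans ?_ (h1.symm.le.trans h2)
  rw [div_le_div_iff₀ (by positivity) hB0]
  have h3 : B ≤ 8 * Real.pi ^ 2 * (1 + w ^ 2) := by
    rw [hB]
    have e1 : (|w| + 2 * Real.pi) ^ 2 ≤ 2 * |w| ^ 2 + 8 * Real.pi ^ 2 := by nlinarith [sq_nonneg (|w| - 2 * Real.pi)]
    rw [sq_abs] at e1
    have e2 : 0 ≤ w ^ 2 := sq_nonneg w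
    have e3 : 2 * w ^ 2 ≤ 8 * Real.pi ^ 2 * w ^ 2 := by
      refine mul_le_mul_of_nonneg_right ?_ e2
      nlinarith
    linarith
  calc 1 * B = B := one_mul B
    _ ≤ 8 * Real.pi ^ 2 * (1 + w ^ 2) := h3
    _ = 4 * Real.pi * (2 * Real.pi * (1 + w ^ 2)) := by ring

lemma k_per (U u : ℝ) : ENNReal.ofReal (1 / (1 + (U - u) ^ 2)) ≤ ENNReal.ofReal (2 * Real.pi) *
    ∫⁻ s in Ioc U (U + 2 * Real.pi), kL 1 (s - u) := by
  have hpi := Real.pi_pos
  have h0 : ∫⁻ s in Ioc U (U + 2 * Real.pi), kL 1 (s - u) = ENNReal.ofReal (∫ v in (U - u)..(U - u + 2 * Real.pi), K v) := by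
    unfold kL
    rw [← ofReal_integral_eq_lintegral_ofReal (kint 1 u one_pos).integrableOn (Eventually.of_forall fun s =>
      mul_nonneg zero_le_one (K_nonneg _)), ← intervalIntegral.integral_of_le (by linarith)]
    congr 1
    simp only [one_mul]
    rw [intervalIntegral.integral_comp_sub_right (fun w => K w) u]
    congr 1
    ring
  rw [h0, ← ENNReal.ofReal_mul (by positivity)]
  refine ENNReal.ofReal_le_ofReal ?_
  have h1 := mul_le_mul_of_nonneg_left (per (U - u)) (show 0 ≤ 2 * Real.pi by positivity)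
  refine le_trans (le_of_eq ?_) h1
  field_simp

lemma tail {f : ℝ → ℝ} (hf : Measurable f) (U : ℝ) :
    ∫⁻ u in Ioi (0 : ℝ), ENNReal.ofReal (f u) * ENNReal.ofReal (1 / (1 + (U - u) ^ 2)) ≤
      ENNReal.ofReal (2 * Real.pi) * ∫⁻ s in Ioc U (U + 2 * Real.pi), Gc f 1 s := by
  have hk := kL_meas 1
  rw [ton hf, ← lintegral_const_mul' _ _ ENNReal.ofReal_ne_top]
  refine lintegral_mono fun u => ?_
  calc ENNReal.ofReal (f u) * ENNReal.ofReal (1 / (1 + (U - u) ^ 2))
      ≤ ENNReal.ofReal (f u) * (ENNReal.ofReal (2 * Real.pi) * ∫⁻ s in Ioc U (U + 2 * Real.pi), kL 1 (s - u)) :=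
        mul_le_mul_right (k_per U u) _
    _ = _ := by ring

/-- the tails of the kernel -/
lemma k_far {L δ h U u s : ℝ} (hL : 0 < L) (hδ : 0 < δ) (hh : 0 < h) (hs : s ∈ Ioc (U + δ) (U + h - δ)) (hu : u ∉ Ioc U (U + h)) :
    kL L (s - u) ≤ ENNReal.ofReal (4 * (2 + (1 + 2 * h ^ 2) / δ ^ 2) / L) * ENNReal.ofReal (1 / (1 + (U - u) ^ 2)) := by
  unfold kL
  rw [← ENNReal.ofReal_mul (by positivity)]
  refine ENNReal.ofReal_le_ofReal ?_
  have h1 : δ ^ 2 ≤ (s - u) ^ 2 := by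
    rw [← sq_abs (s - u)]
    refine pow_le_pow_left₀ hδ.le ?_ 2
    rw [mem_Ioc, not_and_or, not_lt, not_le] at hu
    rcases hu with hu | hu
    · exact le_trans (by linarith [hs.1]) (le_abs_self _)
    · exact le_trans (by linarith [hs.2]) (neg_le_abs _)
  have hsu : 0 < (s - u) ^ 2 := lt_of_lt_of_le (by positivity) h1
  have h2 : (s - U) ^ 2 ≤ h ^ 2 := pow_le_pow_left₀ (by linarith [hs.1]) (by linarith [hs.2]) 2
  have h3 : (U - u) ^ 2 ≤ 2 * (s - u) ^ 2 + 2 * (s - U) ^ 2 := by nlinarith [sq_nonneg ((s - u) + (s - U))]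
  have h4 : (1 + 2 * h ^ 2) ≤ (1 + 2 * h ^ 2) / δ ^ 2 * (s - u) ^ 2 := by
    rw [div_mul_eq_mul_div, le_div_iff₀ (by positivity)]
    exact mul_le_mul_of_nonneg_left h1 (by positivity)
  have h5 : 1 + (U - u) ^ 2 ≤ (2 + (1 + 2 * h ^ 2) / δ ^ 2) * (s - u) ^ 2 := by
    have : (2 + (1 + 2 * h ^ 2) / δ ^ 2) * (s - u) ^ 2 = 2 * (s - u) ^ 2 + (1 + 2 * h ^ 2) / δ ^ 2 * (s - u) ^ 2 := by ring
    rw [this]
    linarith
  have h6 := K_mul_sq_le (L * (s - u))
  have h7 : L * K (L * (s - u)) ≤ 4 / (L * (s - u) ^ 2) := by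
    rw [le_div_iff₀ (by positivity)]
    calc L * K (L * (s - u)) * (L * (s - u) ^ 2) = K (L * (s - u)) * (L * (s - u)) ^ 2 := by ring
      _ ≤ 4 := h6
  refine h7.trans ?_
  rw [mul_one_div, div_div, div_le_div_iff₀ (by positivity) (by positivity)]
  have h8 := mul_le_mul_of_nonneg_left h5 (show 0 ≤ 4 * L by positivity)
  nlinarith

/-- lower bound for the windows -/
lemma low {f : ℝ → ℝ} (hf : Measurable f) {L δ h U : ℝ} (hL : 0 < L) (hδ : 0 < δ) (hh : 0 < h) (hU : 0 ≤ U) :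
    ∫⁻ s in Ioc (U + δ) (U + h - δ), Gc f L s ≤ ENNReal.ofReal (∫ v, K v) * (∫⁻ u in Ioc U (U + h), ENNReal.ofReal (f u)) +
      ENNReal.ofReal (4 * (2 + (1 + 2 * h ^ 2) / δ ^ 2) / L * h) *
        ∫⁻ u in Ioi (0 : ℝ), ENNReal.ofReal (f u) * ENNReal.ofReal (1 / (1 + (U - u) ^ 2)) := by
  have hk := kL_meas L
  rw [ton hf, ← lintegral_const_mul' _ _ ENNReal.ofReal_ne_top, ← lintegral_const_mul' _ _ ENNReal.ofReal_ne_top]
  have hsub : Ioc U (U + h) ⊆ Ioi (0 : ℝ) := fun u hu => lt_of_le_of_lt hU hu.1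
  have hsplit : Ioi (0 : ℝ) = Ioc U (U + h) ∪ (Ioi 0 \ Ioc U (U + h)) := (union_sdiff_cancel hsub).symm
  have h1 : ∫⁻ u in Ioi (0 : ℝ), ENNReal.ofReal (f u) * ∫⁻ s in Ioc (U + δ) (U + h - δ), kL L (s - u) ≤
      (∫⁻ u in Ioc U (U + h), ENNReal.ofReal (f u) * ∫⁻ s in Ioc (U + δ) (U + h - δ), kL L (s - u)) +
      ∫⁻ u in Ioi (0 : ℝ) \ Ioc U (U + h), ENNReal.ofReal (f u) * ∫⁻ s in Ioc (U + δ) (U + h - δ), kL L (s - u) := by
    conv_lhs => rw [hsplit]
    exact lintegral_union_le _ _ _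
  refine h1.trans (add_le_add ?_ ?_)
  · refine lintegral_mono fun u => ?_
    rw [mul_comm]
    refine mul_le_mul_left ?_ _
    rw [← k_total hL (u := u)]
    exact setLIntegral_le_lintegral _ _
  · refine le_trans ?_ (lintegral_mono_set (s := Ioi (0 : ℝ) \ Ioc U (U + h)) sdiff_subset)
    refine lintegral_mono_ae ((ae_restrict_mem (measurableSet_Ioi.diff measurableSet_Ioc)).mono fun u hu => ?_)
    have h2 : ∫⁻ s in Ioc (U + δ) (U + h - δ), kL L (s - u) ≤
        ENNReal.ofReal (4 * (2 + (1 + 2 * h ^ 2) / δ ^ 2) / L) * ENNReal.ofReal (1 / (1 + (U - u) ^ 2)) * ENNReal.ofReal h := by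
      have h3 : ∫⁻ s in Ioc (U + δ) (U + h - δ), kL L (s - u) ≤ ∫⁻ _s in Ioc (U + δ) (U + h - δ),
          (ENNReal.ofReal (4 * (2 + (1 + 2 * h ^ 2) / δ ^ 2) / L) * ENNReal.ofReal (1 / (1 + (U - u) ^ 2))) :=
        lintegral_mono_ae ((ae_restrict_mem measurableSet_Ioc).mono fun s hs => k_far hL hδ hh hs hu.2)
      rw [setLIntegral_const, Real.volume_Ioc] at h3
      refine h3.trans (mul_le_mul_right (ENNReal.ofReal_le_ofReal (by linarith)) _)
    calc ENNReal.ofReal (f u) * ∫⁻ s in Ioc (U + δ) (U + h - δ), kL L (s - u)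
        ≤ ENNReal.ofReal (f u) * (ENNReal.ofReal (4 * (2 + (1 + 2 * h ^ 2) / δ ^ 2) / L) *
          ENNReal.ofReal (1 / (1 + (U - u) ^ 2)) * ENNReal.ofReal h) := mul_le_mul_right h2 _
      _ = _ := by rw [ENNReal.ofReal_mul (p := 4 * (2 + (1 + 2 * h ^ 2) / δ ^ 2) / L) (by positivity)]; ring

lemma intb {f : ℝ → ℝ} (hf : Measurable f) (hf0 : ∀ u, 0 ≤ f u)
    (hi : ∀ x : ℝ, 0 < x → IntegrableOn (fun u => f u * Real.exp (-x * u)) (Ioi 0)) {a b : ℝ} (ha : 0 ≤ a) :
    IntegrableOn f (Ioc a b) := by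
  have h1 : IntegrableOn (fun u => f u * Real.exp (-1 * u)) (Ioc a b) := (hi 1 one_pos).mono_set fun u hu => lt_of_le_of_lt ha hu.1
  refine Integrable.mono' (h1.mul_const (Real.exp b)) hf.aestronglyMeasurable ((ae_restrict_mem measurableSet_Ioc).mono fun u hu => ?_)
  rw [Real.norm_of_nonneg (hf0 u), mul_assoc, ← Real.exp_add]
  exact le_mul_of_one_le_right (hf0 u) (Real.one_le_exp (by linarith [hu.2]))

/-- **the Wiener-Ikehara theorem for functions** -/
theorem wi (f : ℝ → ℝ) (C r : ℝ) (hf : Measurable f) (hf0 : ∀ u, 0 ≤ f u) (hr : 0 < r)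
    (hi : ∀ x : ℝ, 0 < x → IntegrableOn (fun u => f u * Real.exp (-x * u)) (Ioi 0))
    (hΨ : ∀ Y : ℝ, ∃ Ψ : ℂ → ℂ, ContinuousOn Ψ {z : ℂ | 0 ≤ z.re ∧ z.re ≤ r ∧ |z.im| ≤ Y} ∧
      ∀ z : ℂ, 0 < z.re → z.re ≤ r → |z.im| ≤ Y → ∫ u in Ioi (0 : ℝ), (f u : ℂ) * Complex.exp (-z * u) = C / z + Ψ z)
    (h : ℝ) (hh : 0 < h) : Tendsto (fun U : ℝ => ∫ u in U..(U + h), f u) atTop (𝓝 (C * h)) := by
  set Iv : ℝ := ∫ v, K v with hIv
  have hI : 0 < Iv := K_integral_pos
  -- the convolutions converge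
  have hG : ∀ L : ℝ, 0 < L → ∃ V : ℝ → ℝ, (∀ s, 0 ≤ V s) ∧ (∀ s, Gc f L s = ENNReal.ofReal (V s)) ∧ Tendsto V atTop (𝓝 (C * Iv)) := by
    intro L hL
    obtain ⟨Ψ, h1, h2⟩ := hΨ L
    exact ⟨VV Ψ C L, fun s => (Gc_eq hf hf0 hr hi hL h1 h2 s).1, fun s => (Gc_eq hf hf0 hr hi hL h1 h2 s).2, VV_tendsto Ψ C hL⟩
  have hCI : 0 ≤ C * Iv := by
    obtain ⟨V, h1, _, h3⟩ := hG 1 one_pos
    exact ge_of_tendsto' h3 h1
  have hC : 0 ≤ C := nonneg_of_mul_nonneg_left hCI hI
  have hGu : ∀ L : ℝ, 0 < L → ∀ ε : ℝ, 0 < ε → ∃ T : ℝ, ∀ s, T ≤ s → Gc f L s ≤ ENNReal.ofReal (C * Iv + ε) := by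
    intro L hL ε hε
    obtain ⟨V, _, h2, h3⟩ := hG L hL
    obtain ⟨T, hT⟩ := eventually_atTop.1 (h3.eventually_le_const (show C * Iv < C * Iv + ε by linarith))
    exact ⟨T, fun s hs => by rw [h2]; exact ENNReal.ofReal_le_ofReal (hT s hs)⟩
  have hGl : ∀ L : ℝ, 0 < L → ∀ ε : ℝ, 0 < ε → ∃ T : ℝ, ∀ s, T ≤ s → ENNReal.ofReal (C * Iv - ε) ≤ Gc f L s := by
    intro L hL ε hε
    obtain ⟨V, _, h2, h3⟩ := hG L hL
    obtain ⟨T, hT⟩ := eventually_atTop.1 (h3.eventually_const_le (show C * Iv - ε < C * Iv by linarith))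
    exact ⟨T, fun s hs => by rw [h2]; exact ENNReal.ofReal_le_ofReal (hT s hs)⟩
  have hW : ∀ U : ℝ, 0 ≤ U → ∫⁻ u in Ioc U (U + h), ENNReal.ofReal (f u) = ENNReal.ofReal (∫ u in U..(U + h), f u) := by
    intro U hU
    rw [intervalIntegral.integral_of_le (by linarith), ofReal_integral_eq_lintegral_ofReal (intb hf hf0 hi hU)
      (Eventually.of_forall fun u => hf0 u)]
  have hW0 : ∀ U : ℝ, 0 ≤ ∫ u in U..(U + h), f u := fun U =>
    intervalIntegral.integral_nonneg (by linarith) fun u _ => hf0 u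
  rw [tendsto_order]
  refine ⟨fun a ha => ?_, fun a ha => ?_⟩
  · -- lower bound
    have hc : Tendsto (fun δ : ℝ => (C * Iv - δ) * (h - 2 * δ) - δ - a * Iv) (𝓝[>] 0) (𝓝 (C * Iv * h - a * Iv)) := by
      have h0 : Continuous fun δ : ℝ => (C * Iv - δ) * (h - 2 * δ) - δ - a * Iv := by fun_prop
      have := h0.tendsto 0
      simp only [sub_zero, mul_zero] at this
      exact this.mono_left nhdsWithin_le_nhds
    have hpos : 0 < C * Iv * h - a * Iv := by
      have := mul_lt_mul_of_pos_right ha hI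
      linarith
    have hs1 : ∀ᶠ δ : ℝ in 𝓝[>] 0, δ ∈ Ioi (0 : ℝ) := self_mem_nhdsWithin
    have hs2 : ∀ᶠ δ : ℝ in 𝓝[>] 0, δ < h / 2 := nhdsWithin_le_nhds (Iio_mem_nhds (show (0 : ℝ) < h / 2 by positivity))
    obtain ⟨δ, hδ1, hδ2, hδ3⟩ := ((hc.eventually_const_lt hpos).and (hs1.and hs2)).exists
    have hδ : 0 < δ := hδ2
    have hδh : δ < h / 2 := hδ3
    set c' : ℝ := 4 * (2 + (1 + 2 * h ^ 2) / δ ^ 2) with hc'
    have hc'0 : 0 < c' := by positivity
    set M : ℝ := 2 * Real.pi * ((C * Iv + 1) * (2 * Real.pi)) with hM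
    have hM0 : 0 ≤ M := by positivity
    set L : ℝ := c' * h * M / δ + 1 with hL
    have hL0 : 0 < L := by positivity
    have hLM : c' / L * h * M ≤ δ := by
      have : c' / L * h * M = c' * h * M / L := by ring
      rw [this, div_le_iff₀ hL0, hL]
      have e : δ * (c' * h * M / δ + 1) = c' * h * M + δ := by field_simp
      rw [e]
      linarith
    obtain ⟨T1, hT1⟩ := hGl L hL0 δ hδ
    obtain ⟨T2, hT2⟩ := hGu 1 one_pos 1 one_pos
    filter_upwards [eventually_ge_atTop 0, eventually_ge_atTop T1, eventually_ge_atTop T2] with U hU0 hU1 hU2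
    have h1 := low hf hL0 hδ hh hU0 (U := U)
    have h2 : ∫⁻ u in Ioi (0 : ℝ), ENNReal.ofReal (f u) * ENNReal.ofReal (1 / (1 + (U - u) ^ 2)) ≤ ENNReal.ofReal M := by
      refine (tail hf U).trans ?_
      rw [hM, ENNReal.ofReal_mul (p := 2 * Real.pi) (by positivity)]
      refine mul_le_mul_right ?_ _
      have h3 : ∫⁻ s in Ioc U (U + 2 * Real.pi), Gc f 1 s ≤ ∫⁻ _s in Ioc U (U + 2 * Real.pi), ENNReal.ofReal (C * Iv + 1) :=
        lintegral_mono_ae ((ae_restrict_mem measurableSet_Ioc).mono fun s hs => hT2 s (hU2.trans hs.1.le))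
      rw [setLIntegral_const, Real.volume_Ioc] at h3
      refine h3.trans (le_of_eq ?_)
      rw [← ENNReal.ofReal_mul (by positivity)]
      congr 1
      ring
    have h4 : ENNReal.ofReal (C * Iv - δ) * ENNReal.ofReal (h - 2 * δ) ≤ ∫⁻ s in Ioc (U + δ) (U + h - δ), Gc f L s := by
      have h3 : ∫⁻ _s in Ioc (U + δ) (U + h - δ), ENNReal.ofReal (C * Iv - δ) ≤ ∫⁻ s in Ioc (U + δ) (U + h - δ), Gc f L s :=
        lintegral_mono_ae ((ae_restrict_mem measurableSet_Ioc).mono fun s hs => hT1 s (by linarith [hs.1]))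
      rw [setLIntegral_const, Real.volume_Ioc] at h3
      refine le_trans (le_of_eq ?_) h3
      congr 2
      ring
    have h5 : ENNReal.ofReal ((C * Iv - δ) * (h - 2 * δ)) ≤ ENNReal.ofReal (Iv * (∫ u in U..(U + h), f u) + c' / L * h * M) := by
      rw [ENNReal.ofReal_mul' (by linarith)]
      refine h4.trans (h1.trans ?_)
      rw [hW U hU0, ENNReal.ofReal_add (mul_nonneg hI.le (hW0 U)) (by positivity), ENNReal.ofReal_mul hI.le,
        ENNReal.ofReal_mul (p := c' / L * h) (by positivity)]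
      exact add_le_add le_rfl (mul_le_mul_right h2 _)
    rw [ENNReal.ofReal_le_ofReal_iff (add_nonneg (mul_nonneg hI.le (hW0 U)) (by positivity))] at h5
    have h6 : a * Iv < (∫ u in U..(U + h), f u) * Iv := by linarith
    exact lt_of_mul_lt_mul_right h6 hI.le
  · -- upper bound
    have ha0 : 0 < a := lt_of_le_of_lt (mul_nonneg hC hh.le) ha
    have hc : Tendsto (fun δ : ℝ => (C * Iv + δ) * (h + 2 * δ) - a * (Iv - δ)) (𝓝[>] 0) (𝓝 (C * Iv * h - a * Iv)) := by
      have h0 : Continuous fun δ : ℝ => (C * Iv + δ) * (h + 2 * δ) - a * (Iv - δ) := by fun_prop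
      have := h0.tendsto 0
      simp only [sub_zero, add_zero, mul_zero] at this
      exact this.mono_left nhdsWithin_le_nhds
    have hneg : C * Iv * h - a * Iv < 0 := by
      have := mul_lt_mul_of_pos_right ha hI
      linarith
    have hs1 : ∀ᶠ δ : ℝ in 𝓝[>] 0, δ ∈ Ioi (0 : ℝ) := self_mem_nhdsWithin
    obtain ⟨δ, hδ1, hδ2⟩ := ((hc.eventually_lt_const hneg).and hs1).exists
    have hδ : 0 < δ := hδ2
    have hJ : ∀ᶠ x : ℝ in atTop, Iv - δ < J x := J_tendsto.eventually_const_lt (by linarith)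
    have hJ2 : ∀ᶠ L : ℝ in atTop, Iv - δ < J (L * δ) := (tendsto_id.atTop_mul_const hδ).eventually hJ
    obtain ⟨L, hL1, hL0⟩ := (hJ2.and (eventually_gt_atTop 0)).exists
    have hJ0 : 0 ≤ J (L * δ) := by
      unfold J
      have : 0 < L * δ := mul_pos hL0 hδ
      exact intervalIntegral.integral_nonneg (by linarith) fun v _ => K_nonneg v
    obtain ⟨T1, hT1⟩ := hGu L hL0 δ hδ
    filter_upwards [eventually_ge_atTop 0, eventually_ge_atTop (T1 + δ)] with U hU0 hU1
    have h1 := up hf hL0 hδ hU0 (U := U) (h := h)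
    have h3 : ∫⁻ s in Ioc (U - δ) (U + h + δ), Gc f L s ≤ ∫⁻ _s in Ioc (U - δ) (U + h + δ), ENNReal.ofReal (C * Iv + δ) :=
      lintegral_mono_ae ((ae_restrict_mem measurableSet_Ioc).mono fun s hs => hT1 s (by linarith [hs.1]))
    rw [setLIntegral_const, Real.volume_Ioc] at h3
    have h5 := h1.trans h3
    rw [hW U hU0, ← ENNReal.ofReal_mul hJ0, ← ENNReal.ofReal_mul (by linarith),
      ENNReal.ofReal_le_ofReal_iff (mul_nonneg (by linarith) (by linarith))] at h5
    have e : U + h + δ - (U - δ) = h + 2 * δ := by ring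
    rw [e] at h5
    have h6 : a * (Iv - δ) ≤ a * J (L * δ) := mul_le_mul_of_nonneg_left hL1.le ha0.le
    by_contra hcon
    rw [not_lt] at hcon
    have h7 : J (L * δ) * a ≤ J (L * δ) * ∫ u in U..(U + h), f u := mul_le_mul_of_nonneg_left hcon hJ0
    linarith

/-- (WI) -/
theorem t_WI : Pool.Agent.J4H38.GS.S_WI := fun f C r hf hf0 hr hi hΨ h hh => wi f C r hf hf0 hr hi hΨ h hh

end

end Pool.Agent.J4H18.GS
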